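import Pool.Agent.J4H9.BC.Stm

/-!
# Pairing the roots (project BC, piece NEC)
-/

set_option autoImplicit false

namespace Pool.Agent.J4H74.BC

open Pool.Agent.J4H9.BC

theorem enum (T : Multiset ℂ) (N : ℕ) (h : Multiset.card T = N) :
    ∃ z : Fin N → ℂ, (Finset.univ : Finset (Fin N)).val.map z = T := by
  have hl : T.toList.length = N := by rw [Multiset.length_toList, h]
  subst hl
  refine ⟨T.toList.get, ?_⟩
  rw [Fin.univ_val_map, List.ofFn_get, Multiset.coe_toList]

theorem norm_prod_sq {q : ℕ} (T : Multiset ℂ) (h : ∀ z ∈ T, ‖z‖ ^ 2 = (q : ℝ)) :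
    ‖T.prod‖ ^ 2 = (q : ℝ) ^ Multiset.card T := by
  induction T using Multiset.induction with
  | empty => simp
  | cons a T ih =>
    rw [Multiset.prod_cons, norm_mul, mul_pow, h a (Multiset.mem_cons_self a T),
      ih fun z hz => h z (Multiset.mem_cons_of_mem hz), Multiset.card_cons, pow_succ, mul_comm]

theorem card_eq {q s : ℕ} (hq : 1 < q) (hs : 0 < s) {ρ : ℂ} (hρ : ‖ρ‖ ^ 2 = (q : ℝ) ^ s)
    {T : Multiset ℂ} (hT : ∀ z ∈ T, ‖z‖ ^ 2 = (q : ℝ)) {m n : ℕ} (hn : 0 < n)
    (h : (ρ * T.prod ^ s) ^ n = ((((q ^ s : ℕ)) : ℂ) ^ m) ^ n) :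
    Multiset.card T + 1 = 2 * m := by
  have h1 : ‖ρ * T.prod ^ s‖ ^ n = (((q : ℝ) ^ s) ^ m) ^ n := by
    rw [← norm_pow, h, norm_pow, norm_pow, Nat.cast_pow, norm_pow, Complex.norm_natCast]
  have h2 : ‖ρ * T.prod ^ s‖ = ((q : ℝ) ^ s) ^ m :=
    (pow_left_inj₀ (norm_nonneg _) (by positivity) hn.ne').1 h1
  have h3 : ‖ρ‖ ^ 2 * (‖T.prod‖ ^ 2) ^ s = (((q : ℝ) ^ s) ^ m) ^ 2 := by
    rw [← h2, norm_mul, norm_pow, mul_pow, ← pow_mul, ← pow_mul, mul_comm 2 s]
  rw [hρ, norm_prod_sq T hT] at h3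
  have h4 : (q : ℝ) ^ (s + Multiset.card T * s) = (q : ℝ) ^ (s * m * 2) := by
    rw [pow_add, pow_mul, h3, pow_mul, pow_mul]
  have h5 : s + Multiset.card T * s = s * m * 2 :=
    pow_right_injective₀ (by positivity) (by exact_mod_cast hq.ne') h4
  have h6 : s * (Multiset.card T + 1) = s * (2 * m) := by
    rw [show s * (2 * m) = s * m * 2 by ring, ← h5]
    ring
  exact Nat.eq_of_mul_eq_mul_left hs h6

theorem t_NEC : S_NEC := by
  intro q s hq hs Z hZ ρ hρ hodd T
  induction hc : Multiset.card T using Nat.strong_induction_on generalizing T with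
  | _ c ih =>
    intro hTZ m n hn h
    have hcard := card_eq hq hs hρ (fun z hz => hZ z (hTZ z hz)) hn h
    rw [hc] at hcard
    have hqs : ((q ^ s : ℕ) : ℂ) ≠ 0 := by
      exact_mod_cast (pow_pos (by omega : 0 < q) s).ne'
    rcases Nat.lt_or_ge c 2 with h2 | h2
    · have hc1 : c = 1 := by omega
      have hm1 : m = 1 := by omega
      subst hc1 hm1
      obtain ⟨z, rfl⟩ := Multiset.card_eq_one.1 hc
      refine ⟨{(ρ, z ^ s)}, ?_, ?_⟩
      · rw [Multiset.map_singleton, Multiset.map_singleton, Multiset.map_singleton,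
          Multiset.singleton_add]
      · intro t ht
        rw [Multiset.mem_singleton] at ht
        subst ht
        refine ⟨n, hn, ?_⟩
        rw [Multiset.prod_singleton, pow_one] at h
        exact h
    · obtain ⟨m', hm'⟩ : ∃ m', c = 2 * m' + 3 := ⟨m - 2, by omega⟩
      have hmm : m = m' + 2 := by omega
      obtain ⟨z, hz⟩ := enum T (2 * m' + 3) (hc.trans hm')
      have hzZ : ∀ k, z k ∈ Z := fun k => hTZ _ (by
        rw [← hz]
        exact Multiset.mem_map_of_mem z (Finset.mem_univ k))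
      have hprod : ∏ k, z k = T.prod := by
        rw [← hz]
        rfl
      have hex : ∃ k l, k ≠ l ∧ z k * z l = q := by
        by_contra hcon
        push Not at hcon
        refine hodd m' n hn z hzZ ?_ hcon
        rw [hprod, mul_comm, h, hmm, Nat.cast_pow]
      obtain ⟨k, l, hkl, hq'⟩ := hex
      set T' : Multiset ℂ := ((Finset.univ.erase k).erase l).val.map z with hT'
      have hTT : T = z k ::ₘ z l ::ₘ T' := by
        have e1 : (Finset.univ : Finset (Fin (2 * m' + 3))).val =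
            k ::ₘ (Finset.univ.erase k).val := by
          rw [← Finset.insert_val_of_notMem (Finset.notMem_erase k _),
            Finset.insert_erase (Finset.mem_univ k)]
        have e2 : (Finset.univ.erase k : Finset (Fin (2 * m' + 3))).val =
            l ::ₘ ((Finset.univ.erase k).erase l).val := by
          rw [← Finset.insert_val_of_notMem (Finset.notMem_erase l _),
            Finset.insert_erase (Finset.mem_erase.2 ⟨hkl.symm, Finset.mem_univ l⟩)]
        rw [← hz, e1, e2, Multiset.map_cons, Multiset.map_cons]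
      have hc' : Multiset.card T' < c := by
        rw [← hc, hTT, Multiset.card_cons, Multiset.card_cons]
        omega
      have hT'Z : ∀ x ∈ T', x ∈ Z := fun x hx => hTZ x (by
        rw [hTT]
        exact Multiset.mem_cons_of_mem (Multiset.mem_cons_of_mem hx))
      have hqn : (((q ^ s : ℕ) : ℂ)) ^ n ≠ 0 := pow_ne_zero _ hqs
      have h' : (ρ * T'.prod ^ s) ^ n = ((((q ^ s : ℕ)) : ℂ) ^ (m' + 1)) ^ n := by
        have h3 : (ρ * T'.prod ^ s) ^ n * (((q ^ s : ℕ) : ℂ)) ^ n =
            ((((q ^ s : ℕ)) : ℂ) ^ (m' + 1)) ^ n * (((q ^ s : ℕ) : ℂ)) ^ n := by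
          rw [← mul_pow, ← mul_pow, ← pow_succ, show m' + 1 + 1 = m by omega, ← h, hTT,
            Multiset.prod_cons, Multiset.prod_cons, ← mul_assoc (z k), hq', Nat.cast_pow]
          ring
        exact mul_right_cancel₀ hqn h3
      obtain ⟨P, hP, hP'⟩ := ih _ hc' T' rfl hT'Z (m' + 1) n hn h'
      refine ⟨(z k ^ s, z l ^ s) ::ₘ P, ?_, ?_⟩
      · rw [hTT, Multiset.map_cons, Multiset.map_cons, Multiset.map_cons, Multiset.map_cons,
          Multiset.cons_add, Multiset.add_cons, ← hP, Multiset.cons_swap ρ, Multiset.cons_swap ρ]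
      · intro t ht
        rcases Multiset.mem_cons.1 ht with rfl | ht
        · refine ⟨1, one_pos, ?_⟩
          change (z k ^ s * z l ^ s) ^ 1 = _
          rw [← mul_pow, hq', Nat.cast_pow]
        · exact hP' t ht

end Pool.Agent.J4H74.BC
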